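import Mathlib

/-!
# Kronecker's theorem (simultaneous inhomogeneous approximation)

`Kronecker.exists_norm_lt`: if `z j` are complex numbers of modulus one, multiplicatively
independent, then the powers `(z j ^ n)_j` come arbitrarily close to any point of the torus.
`Kronecker.exists_near`: the real form.
-/

open Filter Topology Finset

namespace Kronecker

/-- `f` has the mean value `c`. -/
def HasMean (f : ℕ → ℂ) (c : ℂ) : Prop :=
  Tendsto (fun N : ℕ => (∑ n ∈ range N, f n) / N) atTop (𝓝 c)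

lemma HasMean.const_mul {f : ℕ → ℂ} {c : ℂ} (h : HasMean f c) (a : ℂ) :
    HasMean (fun n => a * f n) (a * c) := by
  unfold HasMean at *
  have := h.const_mul a
  refine this.congr (fun N => ?_)
  rw [← Finset.mul_sum, mul_div_assoc]

lemma HasMean.sum {ι : Type*} (s : Finset ι) {f : ι → ℕ → ℂ} {c : ι → ℂ}
    (h : ∀ i ∈ s, HasMean (f i) (c i)) :
    HasMean (fun n => ∑ i ∈ s, f i n) (∑ i ∈ s, c i) := by
  unfold HasMean at *
  have := tendsto_finsetSum s (fun i hi => h i hi)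
  refine this.congr (fun N => ?_)
  rw [← Finset.sum_div, Finset.sum_comm]

lemma hasMean_one : HasMean (fun _ => 1) 1 := by
  unfold HasMean
  refine tendsto_const_nhds.congr' ?_
  filter_upwards [eventually_gt_atTop 0] with N hN
  have hN' : (N : ℂ) ≠ 0 := by exact_mod_cast hN.ne'
  simp [div_self hN']

lemma hasMean_pow {z : ℂ} (hz : ‖z‖ = 1) (h1 : z ≠ 1) : HasMean (fun n => z ^ n) 0 := by
  unfold HasMean
  have hb : ∀ N : ℕ, ‖(∑ n ∈ range N, z ^ n) / N‖ ≤ (2 / ‖z - 1‖) * (1 / (N : ℝ)) := by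
    intro N
    have hz1 : z - 1 ≠ 0 := sub_ne_zero.mpr h1
    rw [geom_sum_eq h1, norm_div, norm_div]
    have h2 : ‖z ^ N - 1‖ ≤ 2 := by
      calc ‖z ^ N - 1‖ ≤ ‖z ^ N‖ + ‖(1 : ℂ)‖ := norm_sub_le _ _
        _ = 2 := by rw [norm_pow, hz]; norm_num
    have h3 : 0 < ‖z - 1‖ := norm_pos_iff.mpr hz1
    rw [Complex.norm_natCast]
    rw [div_eq_mul_one_div]
    gcongr
  have ht : Tendsto (fun N : ℕ => (2 / ‖z - 1‖) * (1 / (N : ℝ))) atTop (𝓝 0) := by
    have := (tendsto_one_div_atTop_nhds_zero_nat (𝕜 := ℝ)).const_mul (2 / ‖z - 1‖)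
    simpa using this
  exact squeeze_zero_norm hb ht

/-- The mean of the square modulus of a trigonometric polynomial. -/
lemma hasMean_normSq {κ : Type*} [DecidableEq κ] (s : Finset κ) (a z : κ → ℂ)
    (hz : ∀ k ∈ s, ‖z k‖ = 1) (hinj : ∀ k ∈ s, ∀ l ∈ s, z k = z l → k = l) :
    HasMean (fun n => ((‖∑ k ∈ s, a k * z k ^ n‖ ^ 2 : ℝ) : ℂ))
      ((∑ k ∈ s, ‖a k‖ ^ 2 : ℝ) : ℂ) := by
  have key : ∀ n : ℕ, ((‖∑ k ∈ s, a k * z k ^ n‖ ^ 2 : ℝ) : ℂ)
      = ∑ k ∈ s, ∑ l ∈ s, (a k * (starRingEnd ℂ) (a l)) * (z k * (starRingEnd ℂ) (z l)) ^ n := by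
    intro n
    have : ((‖∑ k ∈ s, a k * z k ^ n‖ ^ 2 : ℝ) : ℂ)
        = (∑ k ∈ s, a k * z k ^ n) * (starRingEnd ℂ) (∑ k ∈ s, a k * z k ^ n) := by
      rw [Complex.mul_conj, Complex.normSq_eq_norm_sq]
    rw [this, map_sum, Finset.sum_mul_sum]
    refine Finset.sum_congr rfl (fun k _ => Finset.sum_congr rfl (fun l _ => ?_))
    rw [map_mul, map_pow]
    ring
  have hfun : (fun n => ((‖∑ k ∈ s, a k * z k ^ n‖ ^ 2 : ℝ) : ℂ))
      = fun n => ∑ k ∈ s, ∑ l ∈ s,
        (a k * (starRingEnd ℂ) (a l)) * (z k * (starRingEnd ℂ) (z l)) ^ n := funext key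
  rw [hfun]
  have hval : ((∑ k ∈ s, ‖a k‖ ^ 2 : ℝ) : ℂ)
      = ∑ k ∈ s, ∑ l ∈ s, (a k * (starRingEnd ℂ) (a l)) * (if k = l then 1 else 0) := by
    push_cast
    refine Finset.sum_congr rfl (fun k hk => ?_)
    rw [Finset.sum_eq_single k]
    · rw [if_pos rfl, mul_one, Complex.mul_conj, Complex.normSq_eq_norm_sq]
      push_cast; rfl
    · intro l _ hl
      rw [if_neg (fun h => hl h.symm), mul_zero]
    · intro h; exact absurd hk h
  rw [hval]
  refine HasMean.sum s (fun k hk => HasMean.sum s (fun l hl => HasMean.const_mul ?_ _))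
  by_cases hkl : k = l
  · subst hkl
    rw [if_pos rfl]
    have : z k * (starRingEnd ℂ) (z k) = 1 := by
      rw [Complex.mul_conj, Complex.normSq_eq_norm_sq, hz k hk]; norm_num
    have h1 : (fun n : ℕ => (z k * (starRingEnd ℂ) (z k)) ^ n) = fun _ => 1 := by
      funext n
      rw [this, one_pow]
    exact (congrArg (fun f => HasMean f 1) h1).mpr hasMean_one
  · rw [if_neg hkl]
    refine hasMean_pow ?_ ?_
    · rw [norm_mul, RCLike.norm_conj, hz k hk, hz l hl]; norm_num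
    · intro h
      apply hkl
      apply hinj k hk l hl
      have h2 : (starRingEnd ℂ) (z l) * z l = 1 := by
        rw [mul_comm, Complex.mul_conj, Complex.normSq_eq_norm_sq, hz l hl]; norm_num
      calc z k = z k * ((starRingEnd ℂ) (z l) * z l) := by rw [h2, mul_one]
        _ = (z k * (starRingEnd ℂ) (z l)) * z l := by ring
        _ = z l := by rw [h, one_mul]

/-- If a trigonometric polynomial is bounded, then so is the sum of its squared coefficients. -/
lemma sum_sq_le {κ : Type*} [DecidableEq κ] (s : Finset κ) (a z : κ → ℂ)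
    (hz : ∀ k ∈ s, ‖z k‖ = 1) (hinj : ∀ k ∈ s, ∀ l ∈ s, z k = z l → k = l) (B : ℝ)
    (hB : ∀ n : ℕ, ‖∑ k ∈ s, a k * z k ^ n‖ ^ 2 ≤ B) :
    ∑ k ∈ s, ‖a k‖ ^ 2 ≤ B := by
  have h := hasMean_normSq s a z hz hinj
  unfold HasMean at h
  have h2 : Tendsto (fun N : ℕ => (∑ n ∈ range N, ‖∑ k ∈ s, a k * z k ^ n‖ ^ 2) / (N : ℝ)) atTop
      (𝓝 (∑ k ∈ s, ‖a k‖ ^ 2)) := by
    have h3 := (Complex.continuous_re.tendsto _).comp h
    simp only [Complex.ofReal_re] at h3
    refine h3.congr (fun N => ?_)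
    simp only [Function.comp]
    rw [← Complex.ofReal_sum, ← Complex.ofReal_natCast, ← Complex.ofReal_div, Complex.ofReal_re]
  refine le_of_tendsto h2 ?_
  filter_upwards [eventually_gt_atTop 0] with N hN
  have hN' : (0 : ℝ) < N := by exact_mod_cast hN
  rw [div_le_iff₀ hN']
  calc ∑ n ∈ range N, ‖∑ k ∈ s, a k * z k ^ n‖ ^ 2 ≤ ∑ _n ∈ range N, B :=
        Finset.sum_le_sum (fun n _ => hB n)
    _ = B * N := by simp [mul_comm]

/-- **Kronecker's theorem**, multiplicative form. -/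
theorem exists_norm_lt {ι : Type*} [Fintype ι] [DecidableEq ι] (z v : ι → ℂ)
    (hz : ∀ j, ‖z j‖ = 1) (hv : ∀ j, ‖v j‖ = 1)
    (hind : ∀ m : ι → ℤ, ∏ j, z j ^ m j = 1 → ∀ j, m j = 0) {ε : ℝ} (hε : 0 < ε) :
    ∃ n : ℕ, ∀ j, ‖z j ^ n - v j‖ < ε := by
  by_contra hcon
  push Not at hcon
  -- `ρ`
  set c : ℕ := Fintype.card ι with hc
  have hz0 : ∀ j, z j ≠ 0 := fun j => by
    have := hz j
    intro h; rw [h, norm_zero] at this; norm_num at this
  have hv0 : ∀ j, v j ≠ 0 := fun j => by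
    have := hv j
    intro h; rw [h, norm_zero] at this; norm_num at this
  have hpar : ∀ w : ℂ, ‖w‖ = 1 → ‖1 + w‖ ^ 2 + ‖1 - w‖ ^ 2 = 4 := by
    intro w hw
    have := parallelogram_law_with_norm ℝ (1 : ℂ) w
    rw [hw] at this
    have h1 : ‖(1 : ℂ)‖ = 1 := norm_one
    rw [h1] at this
    nlinarith [this]
  -- the polynomial
  have hmain : ∀ L : ℕ, (4 : ℝ) ^ (L * c) ≤ (L + 1 : ℝ) ^ c * ((4 : ℝ) ^ (L * c)
      * (1 - ε ^ 2 / 4) ^ L) := by
    intro L
    let s : Finset (ι → ℕ) := Fintype.piFinset (fun _ => range (L + 1))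
    let a : (ι → ℕ) → ℂ := fun k => ∏ j, ((L.choose (k j) : ℂ) * ((v j)⁻¹) ^ (k j))
    let Z : (ι → ℕ) → ℂ := fun k => ∏ j, z j ^ (k j)
    have hG : ∀ n : ℕ, ∑ k ∈ s, a k * Z k ^ n = ∏ j, (1 + z j ^ n * (v j)⁻¹) ^ L := by
      intro n
      have h1 : ∀ j, (1 + z j ^ n * (v j)⁻¹) ^ L
          = ∑ i ∈ range (L + 1), (L.choose i : ℂ) * ((v j)⁻¹) ^ i * (z j ^ i) ^ n := by
        intro j
        rw [add_comm, add_pow]
        refine Finset.sum_congr rfl (fun i _ => ?_)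
        rw [one_pow, mul_one, mul_pow, ← pow_mul, ← pow_mul, mul_comm n i]
        ring
      calc ∑ k ∈ s, a k * Z k ^ n
          = ∑ k ∈ s, ∏ j, ((L.choose (k j) : ℂ) * ((v j)⁻¹) ^ (k j) * (z j ^ (k j)) ^ n) := by
            refine Finset.sum_congr rfl (fun k _ => ?_)
            simp only [a, Z]
            rw [← Finset.prod_pow, ← Finset.prod_mul_distrib]
        _ = ∏ j, ∑ i ∈ range (L + 1), ((L.choose i : ℂ) * ((v j)⁻¹) ^ i * (z j ^ i) ^ n) := by
            rw [Finset.prod_univ_sum]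
        _ = ∏ j, (1 + z j ^ n * (v j)⁻¹) ^ L := by
            refine Finset.prod_congr rfl (fun j _ => ?_)
            rw [h1]
    have hZ1 : ∀ k ∈ s, ‖Z k‖ = 1 := by
      intro k _
      simp only [Z]
      rw [norm_prod]
      refine Finset.prod_eq_one (fun j _ => ?_)
      rw [norm_pow, hz, one_pow]
    have hZinj : ∀ k ∈ s, ∀ l ∈ s, Z k = Z l → k = l := by
      intro k _ l _ hkl
      have h1 : ∏ j, z j ^ ((k j : ℤ) - (l j : ℤ)) = 1 := by
        have : ∀ j, z j ^ ((k j : ℤ) - (l j : ℤ)) = z j ^ (k j) / z j ^ (l j) := by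
          intro j
          rw [zpow_sub₀ (hz0 j), zpow_natCast, zpow_natCast]
        simp only [this]
        rw [Finset.prod_div_distrib]
        have hne : ∏ j, z j ^ (l j) ≠ 0 := Finset.prod_ne_zero_iff.mpr
          (fun j _ => pow_ne_zero _ (hz0 j))
        rw [div_eq_one_iff_eq hne]
        exact hkl
      have h2 := hind _ h1
      funext j
      have := h2 j
      omega
    have hB : ∀ n : ℕ, ‖∑ k ∈ s, a k * Z k ^ n‖ ^ 2
        ≤ (4 : ℝ) ^ (L * c) * (1 - ε ^ 2 / 4) ^ L := by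
      intro n
      obtain ⟨j0, hj0⟩ := hcon n
      rw [hG n, norm_prod, ← Finset.prod_pow]
      have hw : ∀ j, ‖z j ^ n * (v j)⁻¹‖ = 1 := by
        intro j
        rw [norm_mul, norm_pow, norm_inv, hz, hv]; norm_num
      have hle : ∀ j, ‖(1 + z j ^ n * (v j)⁻¹) ^ L‖ ^ 2 ≤ 4 ^ L := by
        intro j
        rw [norm_pow, ← pow_mul, mul_comm L 2, pow_mul]
        have := hpar _ (hw j)
        gcongr
        nlinarith [sq_nonneg ‖1 - z j ^ n * (v j)⁻¹‖]
      have hj : ‖(1 + z j0 ^ n * (v j0)⁻¹) ^ L‖ ^ 2 ≤ (4 * (1 - ε ^ 2 / 4)) ^ L := by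
        rw [norm_pow, ← pow_mul, mul_comm L 2, pow_mul]
        have h1 := hpar _ (hw j0)
        have h2 : ε ≤ ‖1 - z j0 ^ n * (v j0)⁻¹‖ := by
          have h3 : ‖1 - z j0 ^ n * (v j0)⁻¹‖ = ‖z j0 ^ n - v j0‖ := by
            have h4 : (1 - z j0 ^ n * (v j0)⁻¹) = -(z j0 ^ n - v j0) * (v j0)⁻¹ := by
              field_simp [hv0 j0]
              ring
            rw [h4, norm_mul, norm_neg, norm_inv, hv, inv_one, mul_one]
          rw [h3]; exact hj0
        have h3 : ε ^ 2 ≤ ‖1 - z j0 ^ n * (v j0)⁻¹‖ ^ 2 := by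
          gcongr
        gcongr
        linarith
      calc ∏ j, ‖(1 + z j ^ n * (v j)⁻¹) ^ L‖ ^ 2
          = ‖(1 + z j0 ^ n * (v j0)⁻¹) ^ L‖ ^ 2
            * ∏ j ∈ univ.erase j0, ‖(1 + z j ^ n * (v j)⁻¹) ^ L‖ ^ 2 :=
            (Finset.mul_prod_erase _ _ (mem_univ j0)).symm
        _ ≤ (4 * (1 - ε ^ 2 / 4)) ^ L * ∏ _j ∈ univ.erase j0, (4 : ℝ) ^ L := by
            refine mul_le_mul hj (Finset.prod_le_prod (fun j _ => by positivity)
              (fun j _ => hle j)) (Finset.prod_nonneg (fun j _ => by positivity)) ?_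
            exact le_trans (by positivity) hj
        _ = (4 : ℝ) ^ (L * c) * (1 - ε ^ 2 / 4) ^ L := by
            rw [Finset.prod_const, Finset.card_erase_of_mem (mem_univ j0), Finset.card_univ,
              ← hc, mul_pow]
            have hc1 : 1 ≤ c := by
              rw [hc]; exact Fintype.card_pos_iff.mpr ⟨j0⟩
            obtain ⟨c', hc'⟩ := Nat.exists_eq_add_of_le hc1
            rw [hc']
            have : 1 + c' - 1 = c' := by omega
            rw [this, mul_add, mul_one, pow_add, pow_mul]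
            ring
    have hsum := sum_sq_le s a Z hZ1 hZinj _ hB
    -- lower bound by Cauchy-Schwarz
    have hnorma : ∀ k, ‖a k‖ = ∏ j, (L.choose (k j) : ℝ) := by
      intro k
      simp only [a]
      rw [norm_prod]
      refine Finset.prod_congr rfl (fun j _ => ?_)
      rw [norm_mul, norm_pow, norm_inv, hv, Complex.norm_natCast]
      norm_num
    have hsuma : ∑ k ∈ s, ‖a k‖ = (2 : ℝ) ^ (L * c) := by
      calc ∑ k ∈ s, ‖a k‖ = ∑ k ∈ s, ∏ j, (L.choose (k j) : ℝ) :=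
            Finset.sum_congr rfl (fun k _ => hnorma k)
        _ = ∏ _j : ι, ∑ i ∈ range (L + 1), (L.choose i : ℝ) := by
            rw [Finset.prod_univ_sum]
        _ = ∏ _j : ι, (2 : ℝ) ^ L := by
            refine Finset.prod_congr rfl (fun j _ => ?_)
            have := Nat.sum_range_choose L
            exact_mod_cast this
        _ = (2 : ℝ) ^ (L * c) := by
            rw [Finset.prod_const, Finset.card_univ, ← hc, ← pow_mul]
    have hCS : (∑ k ∈ s, ‖a k‖) ^ 2 ≤ (s.card : ℝ) * ∑ k ∈ s, ‖a k‖ ^ 2 :=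
      sq_sum_le_card_mul_sum_sq
    have hcard : (s.card : ℝ) = (L + 1 : ℝ) ^ c := by
      simp only [s]
      rw [Fintype.card_piFinset]
      simp [hc]
    calc (4 : ℝ) ^ (L * c) = (∑ k ∈ s, ‖a k‖) ^ 2 := by
          rw [hsuma, ← pow_mul, mul_comm (L * c) 2, pow_mul (2 : ℝ) 2 (L * c)]; norm_num
      _ ≤ (s.card : ℝ) * ∑ k ∈ s, ‖a k‖ ^ 2 := hCS
      _ ≤ (L + 1 : ℝ) ^ c * ((4 : ℝ) ^ (L * c) * (1 - ε ^ 2 / 4) ^ L) := by
          rw [hcard]
          gcongr
  -- let `L → ∞`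
  have hι : Nonempty ι := by
    obtain ⟨j, _⟩ := hcon 0
    exact ⟨j⟩
  have hε2 : ε ≤ 2 := by
    obtain ⟨j, hj⟩ := hcon 0
    calc ε ≤ ‖z j ^ 0 - v j‖ := hj
      _ ≤ ‖z j ^ 0‖ + ‖v j‖ := norm_sub_le _ _
      _ = 2 := by rw [norm_pow, hz, hv]; norm_num
  have hρ0 : 0 ≤ 1 - ε ^ 2 / 4 := by nlinarith
  have hρ1 : 1 - ε ^ 2 / 4 < 1 := by nlinarith [pow_pos hε 2]
  have hlim : Tendsto (fun L : ℕ => (L + 1 : ℝ) ^ c * (1 - ε ^ 2 / 4) ^ L) atTop (𝓝 0) := by
    have h1 : Tendsto (fun L : ℕ => ((L : ℝ)) ^ c * (1 - ε ^ 2 / 4) ^ L) atTop (𝓝 0) :=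
      tendsto_pow_const_mul_const_pow_of_abs_lt_one c (by rw [abs_of_nonneg hρ0]; exact hρ1)
    have h2 : Tendsto (fun L : ℕ => (2 : ℝ) ^ c * (((L : ℝ)) ^ c * (1 - ε ^ 2 / 4) ^ L))
        atTop (𝓝 0) := by
      simpa using h1.const_mul ((2 : ℝ) ^ c)
    refine squeeze_zero' (Eventually.of_forall (fun L => by positivity)) ?_ h2
    filter_upwards [eventually_ge_atTop 1] with L hL
    have hL' : (1 : ℝ) ≤ L := by exact_mod_cast hL
    rw [← mul_assoc, ← mul_pow]
    gcongr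
    linarith
  have hev := hlim.eventually (gt_mem_nhds (show (0 : ℝ) < 1 by norm_num))
  obtain ⟨L, hL⟩ := hev.exists
  have h1 := hmain L
  have h4 : (0 : ℝ) < 4 ^ (L * c) := by positivity
  have : (L + 1 : ℝ) ^ c * ((4 : ℝ) ^ (L * c) * (1 - ε ^ 2 / 4) ^ L)
      = (4 : ℝ) ^ (L * c) * ((L + 1 : ℝ) ^ c * (1 - ε ^ 2 / 4) ^ L) := by ring
  rw [this] at h1
  have : (4 : ℝ) ^ (L * c) * ((L + 1 : ℝ) ^ c * (1 - ε ^ 2 / 4) ^ L) < 4 ^ (L * c) * 1 := by
    gcongr
  linarith

/-- The distance of `exp (2πix)` and `exp (2πiy)` controls the distance of `x - y` to the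
nearest integer. -/
lemma near_of_norm_lt {x y ε : ℝ} (h : ‖Complex.exp (2 * Real.pi * Complex.I * x)
    - Complex.exp (2 * Real.pi * Complex.I * y)‖ < 4 * ε) : ∃ m : ℤ, |x - y - m| < ε := by
  refine ⟨round (x - y), ?_⟩
  set t : ℝ := x - y - round (x - y) with ht
  have ht2 : |t| ≤ 1 / 2 := by
    rw [ht]; exact abs_sub_round (x - y)
  have h1 : ‖Complex.exp (2 * Real.pi * Complex.I * x)
      - Complex.exp (2 * Real.pi * Complex.I * y)‖ = ‖Complex.exp (Complex.I * ((2 * Real.pi * t : ℝ) : ℂ)) - 1‖ := by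
    have h2 : Complex.exp (2 * Real.pi * Complex.I * x)
        = Complex.exp (2 * Real.pi * Complex.I * y) *
          Complex.exp (Complex.I * ((2 * Real.pi * t : ℝ) : ℂ)) := by
      rw [← Complex.exp_add]
      rw [Complex.exp_eq_exp_iff_exists_int]
      refine ⟨round (x - y), ?_⟩
      rw [ht]
      push_cast
      ring
    rw [h2]
    have h3 : Complex.exp (2 * Real.pi * Complex.I * y) *
          Complex.exp (Complex.I * ((2 * Real.pi * t : ℝ) : ℂ)) - Complex.exp (2 * Real.pi * Complex.I * y)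
        = Complex.exp (2 * Real.pi * Complex.I * y) *
          (Complex.exp (Complex.I * ((2 * Real.pi * t : ℝ) : ℂ)) - 1) := by ring
    have h4 : ‖Complex.exp (2 * Real.pi * Complex.I * y)‖ = 1 := by
      have : (2 * Real.pi * Complex.I * y : ℂ) = ((2 * Real.pi * y : ℝ) : ℂ) * Complex.I := by
        push_cast; ring
      rw [this, Complex.norm_exp_ofReal_mul_I]
    rw [h3, norm_mul, h4, one_mul]
  rw [h1, Complex.norm_exp_I_mul_ofReal_sub_one] at h
  have h5 : (2 * Real.pi * t) / 2 = Real.pi * t := by ring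
  rw [h5, norm_mul, Real.norm_eq_abs, Real.norm_eq_abs, abs_two] at h
  have h6 : 2 / Real.pi * |Real.pi * t| ≤ |Real.sin (Real.pi * t)| := by
    refine Real.mul_abs_le_abs_sin ?_
    rw [abs_mul, abs_of_pos Real.pi_pos]
    have := mul_le_mul_of_nonneg_left ht2 Real.pi_pos.le
    linarith
  rw [abs_mul, abs_of_pos Real.pi_pos] at h6
  have h7 : 2 / Real.pi * (Real.pi * |t|) = 2 * |t| := by
    field_simp
  rw [h7] at h6
  linarith

/-- **Kronecker's theorem**, additive form, with `n` in a given residue class and arbitrarily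
large. -/
theorem exists_near {ι : Type*} [Finite ι] (θ β : ι → ℝ)
    (hind : ∀ (m : ι → ℤ) (m0 : ℤ), (∑ᶠ j, (m j : ℝ) * θ j) = m0 → ∀ j, m j = 0)
    {ε : ℝ} (hε : 0 < ε) (M r N0 : ℕ) (hM : 0 < M) :
    ∃ n : ℕ, N0 ≤ n ∧ n % M = r % M ∧ ∀ j, ∃ z : ℤ, |n * θ j - β j - z| < ε := by
  classical
  have := Fintype.ofFinite ι
  let e : ℝ → ℂ := fun x => Complex.exp (2 * Real.pi * Complex.I * x)
  have he1 : ∀ x, ‖e x‖ = 1 := by
    intro x
    have : (2 * Real.pi * Complex.I * x : ℂ) = ((2 * Real.pi * x : ℝ) : ℂ) * Complex.I := by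
      push_cast; ring
    simp only [e]
    rw [this, Complex.norm_exp_ofReal_mul_I]
  set s : ℕ := M * N0 + r with hs
  obtain ⟨n, hn⟩ := exists_norm_lt (fun j => e (M * θ j)) (fun j => e (β j - s * θ j))
    (fun j => he1 _) (fun j => he1 _) (by
      intro m hm
      have h1 : ∀ j, e (M * θ j) ^ m j = Complex.exp (m j * (2 * Real.pi * Complex.I * (M * θ j : ℝ))) := by
        intro j
        simp only [e]
        rw [← Complex.exp_int_mul]
      simp only [h1] at hm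
      rw [← Complex.exp_sum] at hm
      rw [Complex.exp_eq_one_iff] at hm
      obtain ⟨m0, hm0⟩ := hm
      have h2 : (∑ j, (((M : ℤ) * m j : ℤ) : ℝ) * θ j) = m0 := by
        have h3 : (∑ j, (m j * (2 * Real.pi * Complex.I * (M * θ j : ℝ))) : ℂ)
            = (((∑ j, (((M : ℤ) * m j : ℤ) : ℝ) * θ j) : ℝ) : ℂ) * (2 * Real.pi * Complex.I) := by
          push_cast
          rw [Finset.sum_mul]
          refine Finset.sum_congr rfl (fun j _ => ?_)
          ring
        rw [h3] at hm0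
        have h4 : (2 * Real.pi * Complex.I : ℂ) ≠ 0 := Complex.two_pi_I_ne_zero
        have h5 := mul_right_cancel₀ h4 hm0
        exact_mod_cast h5
      have h6 := hind (fun j => (M : ℤ) * m j) m0 (by
        rw [finsum_eq_sum_of_fintype]
        exact h2)
      intro j
      have h7 := h6 j
      rcases mul_eq_zero.mp h7 with h8 | h8
      · exfalso; omega
      · exact h8) (show (0 : ℝ) < 4 * ε by positivity)
  refine ⟨M * n + s, ?_, ?_, ?_⟩
  · rw [hs]
    have : N0 ≤ M * N0 := Nat.le_mul_of_pos_left N0 hM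
    omega
  · rw [hs]
    have : M * n + (M * N0 + r) = r + M * (n + N0) := by ring
    rw [this, Nat.add_mul_mod_self_left]
  · intro j
    have h1 := hn j
    have h2 : e (M * θ j) ^ n = e (n * (M * θ j)) := by
      simp only [e]
      rw [← Complex.exp_nat_mul]
      congr 1
      push_cast
      ring
    rw [h2] at h1
    obtain ⟨z, hz⟩ := near_of_norm_lt h1
    refine ⟨z, ?_⟩
    have : ((M * n + s : ℕ) : ℝ) * θ j - β j - z
        = n * (M * θ j) - (β j - s * θ j) - z := by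
      push_cast; ring
    rw [this]
    exact hz

end Kronecker
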