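import Mathlib

/-!
# Square roots of distinct squarefree numbers are linearly independent over `ℚ`
-/

open Finset

namespace Kronecker

/-- The quadratic extension `K(√q)` of a subfield `K` of `ℝ`, for `√q ∉ K`. -/
def quad (K : Subfield ℝ) (q : ℕ) (hq : √(q : ℝ) ∉ K) : Subfield ℝ where
  carrier := {x | ∃ a ∈ K, ∃ b ∈ K, x = a + b * √(q : ℝ)}
  mul_mem' := by
    rintro x y ⟨a, ha, b, hb, rfl⟩ ⟨c, hc, d, hd, rfl⟩
    refine ⟨a * c + b * d * q, ?_, a * d + b * c, ?_, ?_⟩
    · exact K.add_mem (K.mul_mem ha hc) (K.mul_mem (K.mul_mem hb hd) (natCast_mem K q))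
    · exact K.add_mem (K.mul_mem ha hd) (K.mul_mem hb hc)
    · have h := Real.mul_self_sqrt (show (0 : ℝ) ≤ q by positivity)
      linear_combination (b * d) * h
  one_mem' := ⟨1, K.one_mem, 0, K.zero_mem, by ring⟩
  add_mem' := by
    rintro x y ⟨a, ha, b, hb, rfl⟩ ⟨c, hc, d, hd, rfl⟩
    exact ⟨a + c, K.add_mem ha hc, b + d, K.add_mem hb hd, by ring⟩
  zero_mem' := ⟨0, K.zero_mem, 0, K.zero_mem, by ring⟩
  neg_mem' := by
    rintro x ⟨a, ha, b, hb, rfl⟩
    exact ⟨-a, K.neg_mem ha, -b, K.neg_mem hb, by ring⟩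
  inv_mem' := by
    rintro x ⟨a, ha, b, hb, rfl⟩
    by_cases h0 : a ^ 2 - b ^ 2 * q = 0
    · have hb0 : b = 0 := by
        by_contra hb0
        apply hq
        have h1 : (a / b) ^ 2 = q := by
          field_simp
          linarith
        have h2 : √(q : ℝ) = |a / b| := by
          rw [← h1, Real.sqrt_sq_eq_abs]
        rw [h2]
        rcases abs_choice (a / b) with h3 | h3
        · rw [h3]; exact K.div_mem ha hb
        · rw [h3]; exact K.neg_mem (K.div_mem ha hb)
      subst hb0
      refine ⟨a⁻¹, K.inv_mem ha, 0, K.zero_mem, by ring⟩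
    · refine ⟨a / (a ^ 2 - b ^ 2 * q), ?_, -b / (a ^ 2 - b ^ 2 * q), ?_, ?_⟩
      · refine K.div_mem ha (K.sub_mem (pow_mem ha 2) (K.mul_mem (pow_mem hb 2) (natCast_mem K q)))
      · refine K.div_mem (K.neg_mem hb)
          (K.sub_mem (pow_mem ha 2) (K.mul_mem (pow_mem hb 2) (natCast_mem K q)))
      · have h := Real.mul_self_sqrt (show (0 : ℝ) ≤ q by positivity)
        have h1 : (a + b * √(q : ℝ)) * (a - b * √(q : ℝ)) = a ^ 2 - b ^ 2 * q := by
          linear_combination (-b ^ 2) * h
        have h2 : a + b * √(q : ℝ) ≠ 0 := by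
          intro h3; rw [h3, zero_mul] at h1; exact h0 h1.symm
        rw [inv_eq_iff_eq_inv]
        have h3 : a / (a ^ 2 - b ^ 2 * q) + -b / (a ^ 2 - b ^ 2 * q) * √(q : ℝ)
            = (a + b * √(q : ℝ))⁻¹ := by
          refine eq_inv_of_mul_eq_one_left ?_
          field_simp
          linear_combination h1
        rw [h3, inv_inv]

lemma mem_quad {K : Subfield ℝ} {q : ℕ} {hq : √(q : ℝ) ∉ K} {x : ℝ} :
    x ∈ quad K q hq ↔ ∃ a ∈ K, ∃ b ∈ K, x = a + b * √(q : ℝ) := Iff.rfl

/-- There is a field containing the square roots of the primes in `S` but no other square roots of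
squarefree numbers prime to `S`. -/
lemma exists_field (S : Finset ℕ) (hS : ∀ p ∈ S, p.Prime) :
    ∃ K : Subfield ℝ, (∀ p ∈ S, √(p : ℝ) ∈ K) ∧
      ∀ e : ℕ, Squarefree e → 1 < e → (∀ p ∈ S, ¬ p ∣ e) → √(e : ℝ) ∉ K := by
  induction S using Finset.induction_on with
  | empty =>
    refine ⟨(Rat.castHom ℝ).fieldRange, by simp, ?_⟩
    intro e he h1 _ hmem
    obtain ⟨a, hab⟩ := hmem
    have hirr : Irrational √(e : ℝ) := by
      rw [irrational_sqrt_natCast_iff]
      rintro ⟨r, hr⟩
      have hr' : e = r * r := hr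
      have h2 : r * r ∣ e := ⟨1, by rw [hr']; ring⟩
      have h3 := he r h2
      rw [Nat.isUnit_iff] at h3
      rw [h3] at hr'
      omega
    exact hirr ⟨a, hab⟩
  | insert q S hq ih =>
    obtain ⟨K, hK1, hK2⟩ := ih (fun p hp => hS p (Finset.mem_insert_of_mem hp))
    have hqp : q.Prime := hS q (Finset.mem_insert_self q S)
    have hqK : √(q : ℝ) ∉ K := by
      refine hK2 q hqp.squarefree hqp.one_lt ?_
      intro p hp hdvd
      have hpp := hS p (Finset.mem_insert_of_mem hp)
      rw [Nat.prime_dvd_prime_iff_eq hpp hqp] at hdvd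
      exact hq (hdvd ▸ hp)
    refine ⟨quad K q hqK, ?_, ?_⟩
    · intro p hp
      rcases Finset.mem_insert.mp hp with h | h
      · subst h
        exact ⟨0, K.zero_mem, 1, K.one_mem, by ring⟩
      · exact ⟨_, hK1 p h, 0, K.zero_mem, by ring⟩
    · intro e he h1 hdvd hmem
      obtain ⟨a, ha, b, hb, hab⟩ := hmem
      have heK : √(e : ℝ) ∉ K := hK2 e he h1 (fun p hp => hdvd p (Finset.mem_insert_of_mem hp))
      have hsq : (e : ℝ) = a ^ 2 + b ^ 2 * q + 2 * a * b * √(q : ℝ) := by
        have h2 := Real.mul_self_sqrt (show (0 : ℝ) ≤ e by positivity)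
        have h3 := Real.mul_self_sqrt (show (0 : ℝ) ≤ q by positivity)
        rw [hab] at h2
        linear_combination (-1 : ℝ) * h2 + b ^ 2 * h3
      by_cases ha0 : a = 0
      · -- `√(e q) = b q`
        have h2 : √((e * q : ℕ) : ℝ) = b * q := by
          rw [Nat.cast_mul, Real.sqrt_mul (by positivity), hab, ha0]
          have h3 := Real.mul_self_sqrt (show (0 : ℝ) ≤ q by positivity)
          linear_combination b * h3
        have hcop : Nat.Coprime e q :=
          ((Nat.Prime.coprime_iff_not_dvd hqp).mpr (hdvd q (Finset.mem_insert_self q S))).symm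
        refine hK2 (e * q) ?_ ?_ ?_ (h2 ▸ K.mul_mem hb (natCast_mem K q))
        · exact (Nat.squarefree_mul hcop).mpr ⟨he, hqp.squarefree⟩
        · exact Nat.one_lt_mul_iff.mpr ⟨by omega, hqp.pos, Or.inl h1⟩
        · intro p hp hpe
          have hpp := hS p (Finset.mem_insert_of_mem hp)
          rcases (Nat.Prime.dvd_mul hpp).mp hpe with h3 | h3
          · exact hdvd p (Finset.mem_insert_of_mem hp) h3
          · rw [Nat.prime_dvd_prime_iff_eq hpp hqp] at h3
            exact hq (h3 ▸ hp)
      · by_cases hb0 : b = 0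
        · apply heK
          rw [hab, hb0, zero_mul, add_zero]
          exact ha
        · apply hqK
          have h2 : √(q : ℝ) = (e - a ^ 2 - b ^ 2 * q) / (2 * a * b) := by
            field_simp
            linarith
          rw [h2]
          refine K.div_mem (K.sub_mem (K.sub_mem (natCast_mem K e) (pow_mem ha 2))
            (K.mul_mem (pow_mem hb 2) (natCast_mem K q))) (K.mul_mem (K.mul_mem ?_ ha) hb)
          exact ofNat_mem K 2

lemma sqrt_prod_mem {K : Subfield ℝ} {S T : Finset ℕ} (h : ∀ p ∈ S, √(p : ℝ) ∈ K) (hT : T ⊆ S) :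
    √((∏ p ∈ T, p : ℕ) : ℝ) ∈ K := by
  have : √((∏ p ∈ T, p : ℕ) : ℝ) = ∏ p ∈ T, √(p : ℝ) := by
    induction T using Finset.induction_on with
    | empty => simp
    | insert a T ha ih =>
      rw [Finset.prod_insert ha, Finset.prod_insert ha, Nat.cast_mul,
        Real.sqrt_mul (by positivity), ih (fun p hp => hT (Finset.mem_insert_of_mem hp))]
  rw [this]
  exact K.prod_mem (fun p hp => h p (hT hp))

/-- Linear independence over the subsets of a set of primes. -/
lemma powerset_indep (S : Finset ℕ) (hS : ∀ p ∈ S, p.Prime) (c : Finset ℕ → ℚ)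
    (h : ∑ T ∈ S.powerset, (c T : ℝ) * √((∏ p ∈ T, p : ℕ) : ℝ) = 0) :
    ∀ T ∈ S.powerset, c T = 0 := by
  induction S using Finset.induction_on generalizing c with
  | empty =>
    intro T hT
    simp only [Finset.powerset_empty, Finset.mem_singleton] at hT
    subst hT
    simpa using h
  | insert q S hq ih =>
    have hS' : ∀ p ∈ S, p.Prime := fun p hp => hS p (Finset.mem_insert_of_mem hp)
    have hqp : q.Prime := hS q (Finset.mem_insert_self q S)
    obtain ⟨K, hK1, hK2⟩ := exists_field S hS'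
    have hqK : √(q : ℝ) ∉ K := by
      refine hK2 q hqp.squarefree hqp.one_lt ?_
      intro p hp hdvd
      rw [Nat.prime_dvd_prime_iff_eq (hS' p hp) hqp] at hdvd
      exact hq (hdvd ▸ hp)
    rw [Finset.sum_powerset_insert hq] at h
    set A : ℝ := ∑ T ∈ S.powerset, (c T : ℝ) * √((∏ p ∈ T, p : ℕ) : ℝ) with hA
    set B : ℝ := ∑ T ∈ S.powerset, (c (insert q T) : ℝ) * √((∏ p ∈ T, p : ℕ) : ℝ) with hB
    have hB2 : ∑ T ∈ S.powerset, (c (insert q T) : ℝ) * √((∏ p ∈ insert q T, p : ℕ) : ℝ)
        = √(q : ℝ) * B := by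
      rw [hB, Finset.mul_sum]
      refine Finset.sum_congr rfl (fun T hT => ?_)
      have hqT : q ∉ T := fun h' => hq (Finset.mem_powerset.mp hT h')
      rw [Finset.prod_insert hqT, Nat.cast_mul, Real.sqrt_mul (by positivity)]
      ring
    rw [hB2] at h
    have hmem : ∀ d : Finset ℕ → ℚ,
        ∑ T ∈ S.powerset, (d T : ℝ) * √((∏ p ∈ T, p : ℕ) : ℝ) ∈ K := by
      intro d
      refine K.sum_mem (fun T hT => K.mul_mem ?_ (sqrt_prod_mem hK1 (Finset.mem_powerset.mp hT)))
      exact SubfieldClass.ratCast_mem K (d T)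
    have hAK : A ∈ K := hmem c
    have hBK : B ∈ K := hmem (fun T => c (insert q T))
    have hB0 : B = 0 := by
      by_contra hB0
      apply hqK
      have : √(q : ℝ) = -A / B := by
        field_simp
        linarith
      rw [this]
      exact K.div_mem (K.neg_mem hAK) hBK
    have hA0 : A = 0 := by rw [hB0, mul_zero, add_zero] at h; exact h
    have h1 := ih hS' c hA0
    have h2 := ih hS' (fun T => c (insert q T)) hB0
    intro T hT
    rw [Finset.mem_powerset] at hT
    by_cases hqT : q ∈ T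
    · have h3 := h2 (T.erase q) (by
        rw [Finset.mem_powerset]
        intro x hx
        rw [Finset.mem_erase] at hx
        exact (Finset.mem_insert.mp (hT hx.2)).resolve_left hx.1)
      simpa [Finset.insert_erase hqT] using h3
    · refine h1 T ?_
      rw [Finset.mem_powerset]
      intro x hx
      rcases Finset.mem_insert.mp (hT hx) with h3 | h3
      · exact absurd (h3 ▸ hx) hqT
      · exact h3

/-- **Besicovitch.** Square roots of distinct squarefree numbers are linearly independent over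
`ℚ`. -/
theorem sqrt_indep (F : Finset ℕ) (hF : ∀ d ∈ F, Squarefree d) (c : ℕ → ℚ)
    (h : ∑ d ∈ F, (c d : ℝ) * √(d : ℝ) = 0) : ∀ d ∈ F, c d = 0 := by
  classical
  set S : Finset ℕ := F.biUnion Nat.primeFactors with hS
  have hSp : ∀ p ∈ S, p.Prime := by
    intro p hp
    rw [hS, Finset.mem_biUnion] at hp
    obtain ⟨d, _, hd⟩ := hp
    exact Nat.prime_of_mem_primeFactors hd
  let c' : Finset ℕ → ℚ := fun T => if (∏ p ∈ T, p) ∈ F then c (∏ p ∈ T, p) else 0
  have hinj : ∀ d ∈ F, ∏ p ∈ d.primeFactors, p = d := fun d hd =>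
    Nat.prod_primeFactors_of_squarefree (hF d hd)
  have hsum : ∑ T ∈ S.powerset, (c' T : ℝ) * √((∏ p ∈ T, p : ℕ) : ℝ) = 0 := by
    rw [← h]
    symm
    refine Finset.sum_bij_ne_zero (fun d _ _ => d.primeFactors) ?_ ?_ ?_ ?_
    · intro d hd _
      rw [Finset.mem_powerset, hS]
      exact Finset.subset_biUnion_of_mem Nat.primeFactors hd
    · intro d hd _ e he _ hde
      rw [← hinj d hd, ← hinj e he, hde]
    · intro T hT hne
      have hTF : (∏ p ∈ T, p) ∈ F := by
        by_contra hcon
        apply hne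
        simp only [c', if_neg hcon]
        simp
      refine ⟨∏ p ∈ T, p, hTF, ?_, ?_⟩
      · simpa only [c', if_pos hTF] using hne
      · exact Nat.primeFactors_prod (fun p hp => hSp p (Finset.mem_powerset.mp hT hp))
    · intro d hd _
      simp only [c', hinj d hd, if_pos hd]
  have hall := powerset_indep S hSp c' hsum
  intro d hd
  have h1 := hall d.primeFactors (by
    rw [Finset.mem_powerset, hS]
    exact Finset.subset_biUnion_of_mem Nat.primeFactors hd)
  simpa only [c', hinj d hd, if_pos hd] using h1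

end Kronecker
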