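import Pool.Agent.Kronecker.Basic
import Pool.Agent.Kronecker.SqrtIndep

/-!
# Kronecker's theorem for quotients of square roots
-/

open Finset

namespace Kronecker

/-- For `k` squarefree and squarefree numbers `d ≠ k`, the numbers `n √d / √k` can be brought
simultaneously close to any given values modulo one, with `n` large and in a given class. -/
theorem sqrt_kronecker (k : ℕ) (hk : Squarefree k) (F : Finset ℕ)
    (hF : ∀ d ∈ F, Squarefree d ∧ d ≠ k) (β : ℕ → ℝ) {ε : ℝ} (hε : 0 < ε) (M r N0 : ℕ)
    (hM : 0 < M) :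
    ∃ n : ℕ, N0 ≤ n ∧ n % M = r % M ∧
      ∀ d ∈ F, ∃ z : ℤ, |n * (√(d : ℝ) / √(k : ℝ)) - β d - z| < ε := by
  obtain ⟨n, h1, h2, h3⟩ := exists_near (ι := F) (fun d => √((d : ℕ) : ℝ) / √(k : ℝ))
    (fun d => β d) (by
      intro m m0 hm
      have hk0 : (0 : ℝ) < k := by
        have : k ≠ 0 := hk.ne_zero
        positivity
      have hsk : (0 : ℝ) < √(k : ℝ) := Real.sqrt_pos.mpr hk0
      rw [finsum_eq_sum_of_fintype] at hm
      classical
      let c : ℕ → ℚ := fun d => if h : d ∈ F then (m ⟨d, h⟩ : ℚ) else if d = k then -(m0 : ℚ) else 0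
      have hkF : k ∉ F := fun h => (hF k h).2 rfl
      have h4 : ∑ d ∈ insert k F, (c d : ℝ) * √(d : ℝ) = 0 := by
        rw [Finset.sum_insert hkF]
        have h5 : c k = -(m0 : ℚ) := by
          simp only [c, dif_neg hkF, if_true]
        have h6 : ∑ d ∈ F, (c d : ℝ) * √(d : ℝ)
            = (∑ j : F, (m j : ℝ) * (√((j : ℕ) : ℝ) / √(k : ℝ))) * √(k : ℝ) := by
          rw [← Finset.sum_coe_sort F, Finset.sum_mul]
          refine Finset.sum_congr rfl (fun j _ => ?_)
          have h7 : c (j : ℕ) = (m j : ℚ) := by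
            simp only [c, dif_pos j.2]
          rw [h7]
          push_cast
          field_simp
        rw [h6, hm, h5]
        push_cast
        ring
      have h8 := sqrt_indep (insert k F) (by
        intro d hd
        rcases Finset.mem_insert.mp hd with h | h
        · rw [h]; exact hk
        · exact (hF d h).1) c h4
      intro j
      have h9 := h8 j (Finset.mem_insert_of_mem j.2)
      simp only [c, dif_pos j.2] at h9
      exact_mod_cast h9) hε M r N0 hM
  refine ⟨n, h1, h2, fun d hd => ?_⟩
  exact h3 ⟨d, hd⟩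

end Kronecker
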